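import Mathlib

/-!
Euler-Rodrigues matrices of quaternions as similarities of Euclidean 3-space.
-/

namespace Pool.Agent.MP_36f34d_co.H94

abbrev E := EuclideanSpace ℝ (Fin 3)

/-- the matrix of `v ↦ q v q*` -/
def mat {R : Type*} [CommRing R] (a b c d : R) : Matrix (Fin 3) (Fin 3) R :=
  !![a ^ 2 + b ^ 2 - c ^ 2 - d ^ 2, 2 * (b * c - a * d), 2 * (b * d + a * c);
     2 * (b * c + a * d), a ^ 2 - b ^ 2 + c ^ 2 - d ^ 2, 2 * (c * d - a * b);
     2 * (b * d - a * c), 2 * (c * d + a * b), a ^ 2 - b ^ 2 - c ^ 2 + d ^ 2]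

noncomputable def rot (a b c d : ℝ) : E →ₗ[ℝ] E := Matrix.toLpLin 2 2 (mat a b c d)

theorem rot_apply (a b c d : ℝ) (v : E) (i : Fin 3) :
    rot a b c d v i = mat a b c d i 0 * v 0 + mat a b c d i 1 * v 1 + mat a b c d i 2 * v 2 := by
  simp [rot, Matrix.toLpLin_apply, Matrix.mulVec, dotProduct, Fin.sum_univ_three]

theorem rot_norm (a b c d : ℝ) (v : E) :
    ‖rot a b c d v‖ = (a ^ 2 + b ^ 2 + c ^ 2 + d ^ 2) * ‖v‖ := by
  have h : ‖rot a b c d v‖ ^ 2 = ((a ^ 2 + b ^ 2 + c ^ 2 + d ^ 2) * ‖v‖) ^ 2 := by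
    rw [mul_pow, EuclideanSpace.real_norm_sq_eq, EuclideanSpace.real_norm_sq_eq]
    simp only [Fin.sum_univ_three, rot_apply]
    simp [mat]
    ring
  exact (pow_left_inj₀ (norm_nonneg _) (by positivity) two_ne_zero).1 h

theorem rot_inj {a b c d a' b' c' d' : ℝ} (ha : 0 < a) (ha' : 0 < a')
    (h : rot a b c d = rot a' b' c' d') : a = a' ∧ b = b' ∧ c = c' ∧ d = d' := by
  have hm : mat a b c d = mat a' b' c' d' := (Matrix.toLpLin 2 2).injective h
  have hN : a ^ 2 + b ^ 2 + c ^ 2 + d ^ 2 = a' ^ 2 + b' ^ 2 + c' ^ 2 + d' ^ 2 := by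
    have h1 := rot_norm a b c d (EuclideanSpace.single 0 1)
    have h2 := rot_norm a' b' c' d' (EuclideanSpace.single 0 1)
    rw [h, h2] at h1
    simpa using h1.symm
  have e00 := congrFun (congrFun hm 0) 0
  have e11 := congrFun (congrFun hm 1) 1
  have e22 := congrFun (congrFun hm 2) 2
  have e01 := congrFun (congrFun hm 0) 1
  have e10 := congrFun (congrFun hm 1) 0
  have e02 := congrFun (congrFun hm 0) 2
  have e20 := congrFun (congrFun hm 2) 0
  have e12 := congrFun (congrFun hm 1) 2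
  have e21 := congrFun (congrFun hm 2) 1
  simp [mat] at e00 e11 e22 e01 e10 e02 e20 e12 e21
  have haa : a = a' := by
    have : a ^ 2 = a' ^ 2 := by linear_combination (hN + e00 + e11 + e22) / 4
    exact (pow_left_inj₀ ha.le ha'.le two_ne_zero).1 this
  subst haa
  refine ⟨rfl, ?_, ?_, ?_⟩
  · apply mul_left_cancel₀ ha.ne'
    linear_combination (e21 - e12) / 2
  · apply mul_left_cancel₀ ha.ne'
    linear_combination (e02 - e20) / 2
  · apply mul_left_cancel₀ ha.ne'
    linear_combination (e10 - e01) / 2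

theorem exists_iso (a b c d : ℝ) (ha : 0 < a) (x : E) :
    ∃ (φ : E ≃ᵢ E) (l : ℝ), 0 < l ∧ ∀ v, l • φ v = x + rot a b c d v := by
  have hN : 0 < a ^ 2 + b ^ 2 + c ^ 2 + d ^ 2 := by positivity
  set N := a ^ 2 + b ^ 2 + c ^ 2 + d ^ 2 with hNdef
  let L : E →ₗᵢ[ℝ] E :=
    { toLinearMap := N⁻¹ • rot a b c d
      norm_map' := by
        intro v
        simp only [LinearMap.smul_apply, norm_smul, rot_norm, Real.norm_eq_abs,
          abs_of_pos (inv_pos.2 hN)]
        rw [← hNdef, ← mul_assoc, inv_mul_cancel₀ hN.ne', one_mul] }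
  refine ⟨(L.toLinearIsometryEquiv rfl).toIsometryEquiv.trans (IsometryEquiv.addLeft (N⁻¹ • x)),
    N, hN, fun v => ?_⟩
  change N • (N⁻¹ • x + N⁻¹ • rot a b c d v) = _
  rw [smul_add, smul_smul, smul_smul, mul_inv_cancel₀ hN.ne', one_smul, one_smul]

theorem rot_injective (a b c d : ℝ) (ha : 0 < a) : Function.Injective (rot a b c d) := by
  rw [← LinearMap.ker_eq_bot, LinearMap.ker_eq_bot']
  intro v hv
  have h := rot_norm a b c d v
  rw [hv, norm_zero] at h
  have hN : 0 < a ^ 2 + b ^ 2 + c ^ 2 + d ^ 2 := by positivity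
  exact norm_eq_zero.1 ((mul_eq_zero.1 h.symm).resolve_left hN.ne')

theorem span_top_iff (T : Set E) : ¬ Coplanar ℝ T ↔ vectorSpan ℝ T = ⊤ := by
  rw [coplanar_iff_finrank_le_two]
  constructor
  · intro h
    apply Submodule.eq_top_of_finrank_eq
    have := Submodule.finrank_le (vectorSpan ℝ T)
    simp only [finrank_euclideanSpace, Fintype.card_fin] at this ⊢
    omega
  · intro h
    rw [h]
    simp

theorem lin_ext {T : Set E} (hT : ¬ Coplanar ℝ T) {L L' : E →ₗ[ℝ] E} {x x' : E}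
    (h : ∀ v ∈ T, x + L v = x' + L' v) : L = L' := by
  rw [span_top_iff, vectorSpan_def] at hT
  apply LinearMap.ext_on hT
  rintro _ ⟨u, hu, v, hv, rfl⟩
  have h1 := h u hu
  have h2 := h v hv
  simp only [vsub_eq_sub, map_sub]
  have : L u - L v = (x + L u) - (x + L v) := by abel
  rw [this, h1, h2]; abel

theorem not_coplanar_image {T : Set E} (hT : ¬ Coplanar ℝ T) {L : E →ₗ[ℝ] E}
    (hL : Function.Injective L) (x : E) : ¬ Coplanar ℝ ((fun v => x + L v) '' T) := by
  rw [span_top_iff] at hT ⊢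
  have hs : Function.Surjective L := LinearMap.injective_iff_surjective.1 hL
  rw [eq_top_iff, ← LinearMap.range_eq_top.2 hs, ← Submodule.map_top, ← hT, vectorSpan_def,
    Submodule.map_span, Submodule.span_le]
  rintro _ ⟨_, ⟨u, hu, v, hv, rfl⟩, rfl⟩
  have := vsub_mem_vectorSpan ℝ (Set.mem_image_of_mem (fun v => x + L v) hu)
    (Set.mem_image_of_mem (fun v => x + L v) hv)
  simpa using this

/-- integer points -/
noncomputable def pt (z : Fin 3 → ℤ) : E := WithLp.toLp 2 fun i => (z i : ℝ)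

theorem pt_inj : Function.Injective pt := by
  intro z w h
  funext i
  have := congrArg (fun v : E => v i) h
  simpa [pt] using this

theorem rot_pt (a b c d : ℤ) (x z : Fin 3 → ℤ) :
    pt x + rot a b c d (pt z) = pt (x + (mat a b c d).mulVec z) := by
  ext i
  simp only [PiLp.add_apply, rot_apply]
  fin_cases i <;> simp [pt, mat, dotProduct, Fin.sum_univ_three]

theorem mat_bound {a b c d K : ℤ} (ha : |a| ≤ K) (hb : |b| ≤ K) (hc : |c| ≤ K) (hd : |d| ≤ K)
    (i j : Fin 3) : |mat a b c d i j| ≤ 4 * K ^ 2 := by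
  have hxy : ∀ x y : ℤ, |x| ≤ K → |y| ≤ K → -K ^ 2 ≤ x * y ∧ x * y ≤ K ^ 2 := by
    intro x y hx hy
    rw [← abs_le, abs_mul, pow_two]
    exact mul_le_mul hx hy (abs_nonneg _) ((abs_nonneg _).trans hx)
  have aa := hxy a a ha ha
  have bb := hxy b b hb hb
  have cc := hxy c c hc hc
  have dd := hxy d d hd hd
  have ab := hxy a b ha hb
  have ac := hxy a c ha hc
  have ad := hxy a d ha hd
  have bc := hxy b c hb hc
  have bd := hxy b d hb hd
  have cd := hxy c d hc hd
  rw [abs_le]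
  fin_cases i <;> fin_cases j <;> simp only [mat, pow_two] at * <;>
    simp only [Fin.zero_eta, Fin.mk_one, Fin.reduceFinMk, Matrix.of_apply, Matrix.cons_val',
      Matrix.cons_val, Matrix.cons_val_zero, Matrix.cons_val_one, Matrix.cons_val_fin_one] <;>
    constructor <;>
    linarith [aa.1, aa.2, bb.1, bb.2, cc.1, cc.2, dd.1, dd.2, ab.1, ab.2, ac.1, ac.2, ad.1, ad.2,
      bc.1, bc.2, bd.1, bd.2, cd.1, cd.2]

theorem mulVec_bound {a b c d K B : ℤ} (ha : |a| ≤ K) (hb : |b| ≤ K) (hc : |c| ≤ K) (hd : |d| ≤ K)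
    (z : Fin 3 → ℤ) (hz : ∀ i, |z i| ≤ B) (i : Fin 3) :
    |(mat a b c d).mulVec z i| ≤ 12 * B * K ^ 2 := by
  have h := mat_bound ha hb hc hd i
  have hK : (0 : ℤ) ≤ 4 * K ^ 2 := by positivity
  have k : ∀ j, |mat a b c d i j * z j| ≤ 4 * K ^ 2 * B := by
    intro j
    rw [abs_mul]
    exact mul_le_mul (h j) (hz j) (abs_nonneg _) hK
  simp only [Matrix.mulVec, dotProduct, Fin.sum_univ_three]
  calc _ ≤ |mat a b c d i 0 * z 0| + |mat a b c d i 1 * z 1| + |mat a b c d i 2 * z 2| :=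
        abs_add_three _ _ _
    _ ≤ 4 * K ^ 2 * B + 4 * K ^ 2 * B + 4 * K ^ 2 * B := by
        gcongr <;> apply k
    _ = 12 * B * K ^ 2 := by ring

/-- The grid contains `K^10 / 256` similar copies. -/
theorem grid (T : Finset E) (hT4 : T.card = 4) (hT : ¬ Coplanar ℝ (T : Set E)) (B : ℕ)
    (hB : ∀ v ∈ T, ∃ z : Fin 3 → ℤ, v = pt z ∧ ∀ i, |z i| ≤ B) (K : ℕ) :
    ∃ (P : Finset E) (C : Finset (Finset E)), P.card ≤ ((24 * B + 1) * K ^ 2 + 1) ^ 3 ∧
      K ^ 10 ≤ 256 * C.card ∧ ∀ S ∈ C, S ⊆ P ∧ (S.card = 4 ∧ ¬ Coplanar ℝ (S : Set E)) ∧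
        ∃ (φ : E ≃ᵢ E) (l : ℝ), 0 < l ∧ (S : Set E) = (fun x => l • φ x) '' T := by
  classical
  set P : Finset E := (Fintype.piFinset fun _ : Fin 3 =>
    Finset.Icc (-(12 * B * K ^ 2 : ℤ)) ((12 * B + 1) * K ^ 2)).image pt with hP
  set A : Finset ((Fin 3 → ℤ) × (Fin 4 → ℤ)) :=
    (Fintype.piFinset fun _ : Fin 3 => Finset.Ico (0 : ℤ) (K ^ 2)) ×ˢ
      (Fintype.piFinset fun _ : Fin 4 => Finset.Icc (1 : ℤ) K) with hA
  let g : (Fin 3 → ℤ) × (Fin 4 → ℤ) → E → E := fun p v =>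
    pt p.1 + rot (p.2 0) (p.2 1) (p.2 2) (p.2 3) v
  have hApos : ∀ p ∈ A, ∀ i, (1 : ℤ) ≤ p.2 i ∧ p.2 i ≤ K := by
    intro p hp i
    have := Fintype.mem_piFinset.1 (Finset.mem_product.1 hp).2 i
    exact Finset.mem_Icc.1 this
  have hpos : ∀ p ∈ A, (0 : ℝ) < (p.2 0 : ℝ) := by
    intro p hp
    have := (hApos p hp 0).1
    exact_mod_cast (by omega : (0 : ℤ) < p.2 0)
  refine ⟨P, A.image fun p => T.image (g p), ?_, ?_, ?_⟩
  · refine Finset.card_image_le.trans ?_
    rw [Fintype.card_piFinset]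
    simp only [Int.card_Icc, Finset.prod_const, Finset.card_univ, Fintype.card_fin]
    apply le_of_eq
    congr 1
    have : ((12 * (B : ℤ) + 1) * K ^ 2 + 1 - -(12 * B * K ^ 2)) =
        (((24 * B + 1) * K ^ 2 + 1 : ℕ) : ℤ) := by push_cast; ring
    rw [this, Int.toNat_natCast]
  · have hAc : A.card = K ^ 10 := by
      rw [hA, Finset.card_product, Fintype.card_piFinset, Fintype.card_piFinset]
      simp only [Int.card_Icc, Int.card_Ico, Finset.prod_const, Finset.card_univ, Fintype.card_fin]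
      have h1 : ((K : ℤ) ^ 2 - 0).toNat = K ^ 2 := by
        rw [sub_zero]; exact_mod_cast Int.toNat_natCast (K ^ 2)
      have h2 : ((K : ℤ) + 1 - 1).toNat = K := by simp
      rw [h1, h2]; ring
    rw [← hAc]
    apply Finset.card_le_mul_card_image
    intro S hS
    obtain ⟨p0, hp0, rfl⟩ := Finset.mem_image.1 hS
    have hc : (Fintype.piFinset fun _ : T => T.image (g p0)).card ≤ 256 := by
      rw [Fintype.card_piFinset]
      simp only [Finset.prod_const, Finset.card_univ, Fintype.card_coe, hT4]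
      have : (T.image (g p0)).card ≤ 4 := hT4 ▸ Finset.card_image_le
      calc _ ≤ 4 ^ 4 := by gcongr
        _ = 256 := by norm_num
    refine le_trans (Finset.card_le_card_of_injOn (fun p (v : T) => g p v) ?_ ?_) hc
    · intro p hp
      have hp' := (Finset.mem_filter.1 hp).2
      refine Finset.mem_coe.2 (Fintype.mem_piFinset.2 fun v => ?_)
      rw [← hp']
      exact Finset.mem_image_of_mem _ v.2
    · intro p hp q hq hpq
      have hp' := (Finset.mem_filter.1 hp).1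
      have hq' := (Finset.mem_filter.1 hq).1
      have h : ∀ v ∈ (T : Set E), g p v = g q v := fun v hv => congrFun hpq ⟨v, hv⟩
      have hL := lin_ext hT h
      obtain ⟨v, hv⟩ : T.Nonempty := Finset.card_pos.1 (by omega)
      have h1 := h v hv
      simp only [g, hL, add_left_inj] at h1
      obtain ⟨e0, e1, e2, e3⟩ := rot_inj (hpos p hp') (hpos q hq') hL
      refine Prod.ext (pt_inj h1) ?_
      funext i
      fin_cases i
      · exact_mod_cast e0
      · exact_mod_cast e1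
      · exact_mod_cast e2
      · exact_mod_cast e3
  · intro S hS
    obtain ⟨p, hp, rfl⟩ := Finset.mem_image.1 hS
    have hinj := rot_injective (p.2 0) (p.2 1) (p.2 2) (p.2 3) (hpos p hp)
    refine ⟨?_, ⟨?_, ?_⟩, ?_⟩
    · intro w hw
      obtain ⟨v, hv, rfl⟩ := Finset.mem_image.1 hw
      obtain ⟨z, rfl, hz⟩ := hB v hv
      simp only [g, rot_pt]
      refine Finset.mem_image_of_mem _ (Fintype.mem_piFinset.2 fun i => ?_)
      have hk : ∀ j, |p.2 j| ≤ (K : ℤ) := by
        intro j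
        have := hApos p hp j
        rw [abs_le]; omega
      have h1 := abs_le.1 (mulVec_bound (hk 0) (hk 1) (hk 2) (hk 3) z hz i)
      have h2 := Finset.mem_Ico.1 (Fintype.mem_piFinset.1 (Finset.mem_product.1 hp).1 i)
      rw [Finset.mem_Icc, Pi.add_apply]
      constructor <;> nlinarith [h1.1, h1.2, h2.1, h2.2]
    · rw [Finset.card_image_of_injective _ (fun u v h => hinj (add_left_cancel h)), hT4]
    · rw [Finset.coe_image]
      exact not_coplanar_image hT hinj _
    · obtain ⟨φ, l, hl, h⟩ := exists_iso (p.2 0) (p.2 1) (p.2 2) (p.2 3) (hpos p hp) (pt p.1)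
      refine ⟨φ, l, hl, ?_⟩
      rw [Finset.coe_image]
      exact Set.image_congr fun v _ => (h v).symm

end Pool.Agent.MP_36f34d_co.H94
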